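import Pool.Agent.N86.Lamp

/-!
For every nonabelian finite group `Y` the finite state wreath power of `Y` contains no subgroup
isomorphic to the restricted wreath product of `Y` and the integers; in particular the group `G_Y`
is not isomorphic to it.
-/

set_option autoImplicit false

namespace Pool.Agent.Results.MP_e17fb9_al.NonabelianFails

open Pool.Agent.N86.Lam

theorem result (Y : Type) [Group Y] [Finite Y] (hY : ∃ x y : Y, x * y ≠ y * x) :
    ¬ Nonempty (GY Y ≃* Lamp Y) ∧
      ∀ Γ : Subgroup (Equiv.Perm (List Y)), (∀ g ∈ Γ, ⇑g ∈ WreathPower Y) →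
        ¬ Nonempty (Γ ≃* Lamp Y) := by
  obtain ⟨x, y, hxy⟩ := hY
  refine ⟨?_, ?_⟩
  · rintro ⟨e⟩
    exact hxy (comm_of_equiv (GY Y) GY_length e.symm x y)
  · rintro Γ hΓ ⟨e⟩
    refine hxy (comm_of_equiv Γ (fun g hg w => ?_) e.symm x y)
    obtain ⟨Q, _, δ, f, q, h⟩ := hΓ g hg
    rw [h, run_length]

end Pool.Agent.Results.MP_e17fb9_al.NonabelianFails
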